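import Pool.Agent.H19.QT.Pair

set_option autoImplicit false

/-!
The pair code of a part for a global code whose only `{0,z}`-words are `0` and `z1`
(MP_a46c6f_co, target (A)).
-/

namespace Pool.Agent.H19.QT

open Finset Pool.Agent.H98.Code

variable {V : Type} [Fintype V] [DecidableEq V]
variable {L : Submodule (ZMod 2) (V → K)} {e : V} {D : V → K} {P : Finset (Finset V)}

theorem fst_zero_iff (a : K) : a.1 = 0 ↔ a = 0 ∨ a = z := by
  revert a; decide

/-- a full state which differs from `D` only on one part is `D`, if there is another part. -/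
theorem IsParts.glob_unique (hP : IsParts L e D P) (h : Hyp L e D)
    (hz : ∀ u ∈ L, ZOnly u → u = 0 ∨ ∀ v, u v = z) {M M' : Finset V}
    (hM : M ∈ P) (hM' : M' ∈ P) (hne : M' ≠ M) {D' : V → K} (h' : Hyp L e D')
    (hoff : ∀ v, v ∉ M → D' v = D v) : ∀ v, v ≠ e → D v = D' v := by
  rcases h.unique' h' hz with h1 | h1
  · exact h1
  · exfalso
    obtain ⟨w, hw⟩ := Finset.nonempty_iff_ne_empty.2 (hP.mem M' hM').1
    have hwM : w ∉ M := Finset.disjoint_left.1 (hP.disj M' hM' M hM hne) hw
    have hwe : w ≠ e := fun h0 => (hP.mem M' hM').2.1 (h0 ▸ hw)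
    have h2 := h1 w hwe
    rw [hoff w hwM] at h2
    have h3 : D w + D w = z := by
      nth_rewrite 1 [h2]
      rw [add_comm, ← add_assoc, K_add_self, zero_add]
    rw [K_add_self] at h3
    exact absurd h3 (by decide)

/-- no `{0,z}`-word in the pair code -/
theorem IsParts.glob_noZ (hP : IsParts L e D P) (h : Hyp L e D)
    (hz : ∀ u ∈ L, ZOnly u → u = 0 ∨ ∀ v, u v = z) {M M' : Finset V}
    (hM : M ∈ P) (hM' : M' ∈ P) (hMM : M' ≠ M) {u : V → K} (hu : u ∈ L)
    (hoff : ∀ v, v ∉ M → v ≠ e → u v = 0 ∨ u v = D v)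
    (hue : u e = 0 ∨ u e = z) (huM : ∀ v, v ∈ M → (u v).1 = 0) : ∀ v, v ∈ M → u v = 0 := by
  have heM : e ∉ M := (hP.mem M hM).2.1
  set D' : V → K := fun v => if v ∈ M then D v + u v else D v with hD'
  have hne : ∀ v, v ∈ M → v ≠ e := fun v hv h0 => heM (h0 ▸ hv)
  have hlet : ∀ v, v ∈ M → (D' v).1 = 1 := by
    intro v hv
    rw [hD']
    simp only [if_pos hv]
    rw [Prod.fst_add, h.letter v (hne v hv), huM v hv, add_zero]
  have hw : KD L D' e (pw D e M + u) := by
    refine ⟨L.add_mem (hP.mem M hM).2.2 hu, ?_, ?_⟩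
    · intro w hw
      rw [Pi.add_apply, hD']
      unfold pw
      by_cases hwM : w ∈ M
      · right
        simp only [if_neg hw, if_pos hwM]
      · simp only [if_neg hw, if_neg hwM, zero_add]
        exact hoff w hwM hw
    · rw [Pi.add_apply]
      have : pw D e M e = z := by simp [pw]
      rw [this]
      rcases hue with h1 | h1
      · right; rw [h1, add_zero]
      · left; rw [h1, K_add_self]
  have hoff' : ∀ v, v ∉ M → D' v = D v := by
    intro v hv
    rw [hD']
    simp only [if_neg hv]
  have h' : Hyp L e D' := by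
    refine hP.hyp_change h hM D' hoff' hlet ?_
    intro v hv
    refine ⟨_, hw, ?_⟩
    rw [Pi.add_apply]
    unfold pw
    rw [if_neg (hne v hv), if_pos hv]
    intro h0
    have h1 := hlet v hv
    rw [hD'] at h1
    simp only [if_pos hv] at h1
    rw [h0] at h1
    exact absurd h1 (by decide)
  intro v hv
  have h1 := hP.glob_unique h hz hM hM' hMM h' hoff' v (hne v hv)
  rw [hD'] at h1
  simp only [if_pos hv] at h1
  have h2 : D v + D v = D v + (D v + u v) := by rw [← h1]
  rw [K_add_self, ← add_assoc, K_add_self, zero_add] at h2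
  exact h2.symm

end Pool.Agent.H19.QT
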