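import Pool.Agent.H98.Code.Defs

set_option autoImplicit false

/-!
Full states at a root `e` (MP_a46c6f_co, notes 6664 (3), 6859 (0)): the words of a full state are the unions of
disjoint sets `M`, each the support of a word with `z` at `e`.
-/

namespace Pool.Agent.H19.QT

open Finset Pool.Agent.H98.Code

/-! ### Combinatorial part -/

section Comb

variable {α : Type*} [DecidableEq α]

/-- minimal nonempty members of a family -/
def IsMin (F : Finset α → Prop) (M : Finset α) : Prop :=
  F M ∧ M ≠ ∅ ∧ ∀ N, F N → N ≠ ∅ → N ⊆ M → N = M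

/-- the axioms of an even/odd family -/
structure Fam (F E : Finset α → Prop) : Prop where
  sd : ∀ S T, F S → F T → F (symmDiff S T)
  par : ∀ S T, F S → F T → ¬ E S → ¬ E T → E (symmDiff S T)
  split : ∀ S, F S → E S → S ≠ ∅ → ∃ A B, F A ∧ F B ∧ A ≠ ∅ ∧ B ≠ ∅ ∧ Disjoint A B ∧ A ∪ B = S

variable {F E : Finset α → Prop}

theorem exists_isMin (S : Finset α) (hS : F S) (hne : S ≠ ∅) : ∃ M, IsMin F M ∧ M ⊆ S := by
  classical
  induction S using Finset.strongInduction with
  | H S ih =>
    by_cases h : ∃ N, F N ∧ N ≠ ∅ ∧ N ⊆ S ∧ N ≠ S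
    · obtain ⟨N, hN, hN0, hNS, hNne⟩ := h
      obtain ⟨M, hM, hMN⟩ := ih N (Finset.ssubset_iff_subset_ne.2 ⟨hNS, hNne⟩) hN hN0
      exact ⟨M, hM, hMN.trans hNS⟩
    · push Not at h
      exact ⟨S, ⟨hS, hne, fun N hN hN0 hNS => h N hN (Finset.nonempty_iff_ne_empty.2 hN0) hNS⟩, Finset.Subset.refl _⟩

theorem Fam.odd (hF : Fam F E) {M : Finset α} (hM : IsMin F M) : ¬ E M := by
  intro hE
  obtain ⟨A, B, hA, hB, hA0, hB0, hd, hu⟩ := hF.split M hM.1 hE hM.2.1
  have h1 : A = M := hM.2.2 A hA hA0 (hu ▸ Finset.subset_union_left)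
  have h2 : B = M := hM.2.2 B hB hB0 (hu ▸ Finset.subset_union_right)
  rw [h1, h2] at hd
  exact hM.2.1 (by simpa using hd)

theorem Fam.disj (hF : Fam F E) : ∀ (n : ℕ) (M₁ M₂ : Finset α), (M₁ ∪ M₂).card = n →
    IsMin F M₁ → IsMin F M₂ → M₁ ≠ M₂ → Disjoint M₁ M₂ := by
  intro n
  induction n using Nat.strong_induction_on with
  | _ n ih =>
    intro M₁ M₂ hn h1 h2 hne
    by_contra hnd
    have hS : F (symmDiff M₁ M₂) := hF.sd _ _ h1.1 h2.1
    have hE : E (symmDiff M₁ M₂) := hF.par _ _ h1.1 h2.1 (hF.odd h1) (hF.odd h2)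
    have hS0 : symmDiff M₁ M₂ ≠ ∅ := by
      intro h
      apply hne
      have : symmDiff M₁ M₂ = ⊥ := h
      exact symmDiff_eq_bot.1 this
    obtain ⟨A, B, hA, hB, hA0, hB0, hd, hu⟩ := hF.split _ hS hE hS0
    obtain ⟨N, hN, hNA⟩ := exists_isMin A hA hA0
    have hNS : N ⊆ symmDiff M₁ M₂ := hNA.trans (hu ▸ Finset.subset_union_left)
    have key : ∀ v, v ∈ N → (v ∈ M₁ ∧ v ∉ M₂) ∨ (v ∈ M₂ ∧ v ∉ M₁) := by
      intro v hv
      exact Finset.mem_symmDiff.1 (hNS hv)
    have hN1 : N ≠ M₁ := by
      intro h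
      apply hnd
      rw [Finset.disjoint_left]
      intro v hv hv2
      rcases key v (h ▸ hv) with h' | h'
      · exact h'.2 hv2
      · exact h'.2 hv
    have hN2 : N ≠ M₂ := by
      intro h
      apply hnd
      rw [Finset.disjoint_left]
      intro v hv hv2
      rcases key v (h ▸ hv2) with h' | h'
      · exact h'.2 hv2
      · exact h'.2 hv
    have hnd1 : ¬ Disjoint N M₁ := by
      intro h
      apply hN2
      apply h2.2.2 N hN.1 hN.2.1
      intro v hv
      rcases key v hv with h' | h'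
      · exact absurd h'.1 (Finset.disjoint_left.1 h hv)
      · exact h'.1
    have hnd2 : ¬ Disjoint N M₂ := by
      intro h
      apply hN1
      apply h1.2.2 N hN.1 hN.2.1
      intro v hv
      rcases key v hv with h' | h'
      · exact h'.1
      · exact absurd h'.1 (Finset.disjoint_left.1 h hv)
    have sub1 : N ∪ M₁ ⊆ M₁ ∪ M₂ := by
      intro v hv
      rcases Finset.mem_union.1 hv with h | h
      · rcases key v h with h' | h'
        · exact Finset.mem_union_left _ h'.1
        · exact Finset.mem_union_right _ h'.1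
      · exact Finset.mem_union_left _ h
    have sub2 : N ∪ M₂ ⊆ M₁ ∪ M₂ := by
      intro v hv
      rcases Finset.mem_union.1 hv with h | h
      · rcases key v h with h' | h'
        · exact Finset.mem_union_left _ h'.1
        · exact Finset.mem_union_right _ h'.1
      · exact Finset.mem_union_right _ h
    have e1 : N ∪ M₁ = M₁ ∪ M₂ := by
      by_contra hne'
      have hlt : (N ∪ M₁).card < n := by
        rw [← hn]
        exact Finset.card_lt_card (Finset.ssubset_iff_subset_ne.2 ⟨sub1, hne'⟩)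
      exact hnd1 (ih _ hlt N M₁ rfl hN h1 hN1)
    have e2 : N ∪ M₂ = M₁ ∪ M₂ := by
      by_contra hne'
      have hlt : (N ∪ M₂).card < n := by
        rw [← hn]
        exact Finset.card_lt_card (Finset.ssubset_iff_subset_ne.2 ⟨sub2, hne'⟩)
      exact hnd2 (ih _ hlt N M₂ rfl hN h2 hN2)
    have hSN : symmDiff M₁ M₂ ⊆ N := by
      intro v hv
      rcases Finset.mem_symmDiff.1 hv with h | h
      · have : v ∈ N ∪ M₂ := by rw [e2]; exact Finset.mem_union_left _ h.1
        rcases Finset.mem_union.1 this with h' | h'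
        · exact h'
        · exact absurd h' h.2
      · have : v ∈ N ∪ M₁ := by rw [e1]; exact Finset.mem_union_right _ h.1
        rcases Finset.mem_union.1 this with h' | h'
        · exact h'
        · exact absurd h' h.2
    obtain ⟨b, hb⟩ := Finset.nonempty_iff_ne_empty.2 hB0
    have hbS : b ∈ symmDiff M₁ M₂ := hu ▸ Finset.mem_union_right _ hb
    exact Finset.disjoint_left.1 hd (hNA (hSN hbS)) hb

theorem Fam.cover (hF : Fam F E) (S : Finset α) : F S → ∀ v ∈ S, ∃ M, IsMin F M ∧ v ∈ M ∧ M ⊆ S := by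
  induction S using Finset.strongInduction with
  | H S ih =>
    intro hS v hv
    obtain ⟨M, hM, hMS⟩ := exists_isMin S hS (Finset.ne_empty_of_mem hv)
    by_cases hvM : v ∈ M
    · exact ⟨M, hM, hvM, hMS⟩
    · have hsd : symmDiff S M = S \ M := by
        ext w
        simp only [Finset.mem_symmDiff, Finset.mem_sdiff]
        constructor
        · rintro (h | h)
          · exact h
          · exact absurd (hMS h.1) h.2
        · intro h
          exact Or.inl h
      have hss : S \ M ⊂ S := by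
        refine Finset.ssubset_iff_subset_ne.2 ⟨Finset.sdiff_subset, ?_⟩
        intro h
        obtain ⟨m, hm⟩ := Finset.nonempty_iff_ne_empty.2 hM.2.1
        have : m ∈ S \ M := by rw [h]; exact hMS hm
        exact (Finset.mem_sdiff.1 this).2 hm
      obtain ⟨M', hM', hvM', hM'S⟩ := ih (S \ M) hss (hsd ▸ hF.sd _ _ hS hM.1) v
        (Finset.mem_sdiff.2 ⟨hv, hvM⟩)
      exact ⟨M', hM', hvM', hM'S.trans Finset.sdiff_subset⟩

theorem Fam.sub_or_disj (hF : Fam F E) {S M : Finset α} (hS : F S) (hM : IsMin F M) :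
    M ⊆ S ∨ Disjoint M S := by
  by_cases h : Disjoint M S
  · exact Or.inr h
  · left
    rw [Finset.disjoint_left] at h
    push Not at h
    obtain ⟨v, hvM, hvS⟩ := h
    obtain ⟨M', hM', hvM', hM'S⟩ := hF.cover S hS v hvS
    have : M = M' := by
      by_contra hne
      exact Finset.disjoint_left.1 (hF.disj _ M M' rfl hM hM' hne) hvM hvM'
    rw [this]
    exact hM'S

end Comb

/-! ### Words -/

theorem K_add_self (a : K) : a + a = 0 := by revert a; decide

theorem K_fst_add (a b : K) (ha : a = 0 ∨ a = z) (hb : b = 0 ∨ b = z) : (a + b).1 = 0 := by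
  revert a b; decide

theorem K_cases (a : K) (h : a.1 = 0) : a = 0 ∨ a = z := by
  revert a; decide

variable {V : Type} [Fintype V] [DecidableEq V]

/-- the words of the state `D` at `e` -/
def KD (L : Submodule (ZMod 2) (V → K)) (D : V → K) (e : V) (u : V → K) : Prop :=
  u ∈ L ∧ (∀ v, v ≠ e → u v = 0 ∨ u v = D v) ∧ (u e = 0 ∨ u e = z)

/-- support off `e` -/
def sup (e : V) (u : V → K) : Finset V := univ.filter fun v => v ≠ e ∧ u v ≠ 0

theorem mem_sup {e : V} {u : V → K} {v : V} : v ∈ sup e u ↔ v ≠ e ∧ u v ≠ 0 := by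
  simp [sup]

/-- words below a full state which are `0` at `e` split -/
def KSplit (L : Submodule (ZMod 2) (V → K)) (e : V) : Prop :=
  ∀ D : V → K, (∀ v, v ≠ e → (D v).1 = 1) → (∀ v, v ≠ e → ∃ u, KD L D e u ∧ u v ≠ 0) →
    ∀ u, KD L D e u → u ≠ 0 → u e = 0 → ∃ g, Splits L u g

/-- the standing hypotheses -/
structure Hyp (L : Submodule (ZMod 2) (V → K)) (e : V) (D : V → K) : Prop where
  iso : ∀ u ∈ L, ∀ w ∈ L, form u w = 0
  noz : ∀ u ∈ L, (∀ v, v ≠ e → u v = 0) → u e ≠ z
  split : KSplit L e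
  letter : ∀ v, v ≠ e → (D v).1 = 1
  full : ∀ v, v ≠ e → ∃ u, KD L D e u ∧ u v ≠ 0

variable {L : Submodule (ZMod 2) (V → K)} {e : V} {D : V → K}

theorem Hyp.D_ne (h : Hyp L e D) {v : V} (hv : v ≠ e) : D v ≠ 0 := by
  intro h0
  have := h.letter v hv
  rw [h0] at this
  exact absurd this (by decide)

theorem KD.add {u w : V → K} (hu : KD L D e u) (hw : KD L D e w) : KD L D e (u + w) := by
  refine ⟨L.add_mem hu.1 hw.1, ?_, ?_⟩
  · intro v hv
    rcases hu.2.1 v hv with h1 | h1 <;> rcases hw.2.1 v hv with h2 | h2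
    · left; simp [h1, h2]
    · right; simp [h1, h2]
    · right; simp [h1, h2]
    · left; rw [Pi.add_apply, h1, h2, K_add_self]
  · rcases hu.2.2 with h1 | h1 <;> rcases hw.2.2 with h2 | h2
    · left; simp [h1, h2]
    · right; simp [h1, h2]
    · right; simp [h1, h2]
    · left; rw [Pi.add_apply, h1, h2, K_add_self]

theorem Hyp.sup_add (h : Hyp L e D) {u w : V → K} (hu : KD L D e u) (hw : KD L D e w) :
    sup e (u + w) = symmDiff (sup e u) (sup e w) := by
  ext v
  simp only [mem_sup, Finset.mem_symmDiff, Pi.add_apply]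
  by_cases hv : v = e
  · simp [hv]
  · have hD := h.D_ne hv
    rcases hu.2.1 v hv with h1 | h1 <;> rcases hw.2.1 v hv with h2 | h2
    · simp [h1, h2]
    · simp [h1, h2, hv, hD]
    · simp [h1, h2, hv, hD]
    · simp [h1, h2, hv, hD, K_add_self]

theorem Hyp.eq_of_sup (h : Hyp L e D) {u w : V → K} (hu : KD L D e u) (hw : KD L D e w)
    (hs : sup e u = sup e w) : u = w := by
  have hk := hu.add hw
  have hsup : sup e (u + w) = ∅ := by
    rw [h.sup_add hu hw, hs]
    exact symmDiff_self _
  have h0 : ∀ v, v ≠ e → (u + w) v = 0 := by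
    intro v hv
    by_contra hne
    have : v ∈ sup e (u + w) := mem_sup.2 ⟨hv, hne⟩
    rw [hsup] at this
    exact absurd this (Finset.notMem_empty _)
  have he : (u + w) e = 0 := by
    rcases hk.2.2 with h1 | h1
    · exact h1
    · exact absurd h1 (h.noz _ hk.1 h0)
  have hall : ∀ v, (u + w) v = 0 := by
    intro v
    by_cases hv : v = e
    · rw [hv]; exact he
    · exact h0 v hv
  funext v
  have h3 := hall v
  rw [Pi.add_apply] at h3
  have h4 : u v + w v + w v = w v := by rw [h3, zero_add]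
  rw [add_assoc, K_add_self, add_zero] at h4
  exact h4

/-- splitting inside the state -/
theorem Hyp.split_in (h : Hyp L e D) {u : V → K} (hu : KD L D e u) (hu0 : u ≠ 0) (hue : u e = 0) :
    ∃ c₁ c₂, KD L D e c₁ ∧ KD L D e c₂ ∧ c₁ e = z ∧ c₂ e = z ∧ u = c₁ + c₂ ∧
      ∀ v, v ≠ e → c₁ v = 0 ∨ c₂ v = 0 := by
  obtain ⟨g, c₁, hc₁, c₂, hc₂, hsum', hg1, hg2, hd⟩ := h.split D h.letter h.full u hu hu0 hue
  have hsum : u = c₁ + c₂ := hsum'.symm
  have hval : ∀ v, v ≠ g → (c₁ v = 0 ∨ c₁ v = u v) ∧ (c₂ v = 0 ∨ c₂ v = u v) := by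
    intro v hv
    have hs : u v = c₁ v + c₂ v := by rw [hsum]; rfl
    rcases hd v hv with h1 | h1
    · rw [h1, zero_add] at hs
      exact ⟨Or.inl h1, Or.inr hs.symm⟩
    · rw [h1, add_zero] at hs
      exact ⟨Or.inr hs.symm, Or.inl h1⟩
  have hge : g = e := by
    by_contra hne
    obtain ⟨k, hk, hkg⟩ := h.full g hne
    have hkD : k g = D g := by
      rcases hk.2.1 g hne with h1 | h1
      · exact absurd h1 hkg
      · exact h1
    have hform := h.iso c₁ hc₁ k hk.1
    have hone : ∑ v, kf (c₁ v) (k v) = kf (c₁ g) (k g) := by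
      apply Finset.sum_eq_single g
      · intro v _ hv
        by_cases hve : v = e
        · have : c₁ v = 0 := by
            rcases (hval v hv).1 with h1 | h1
            · exact h1
            · rw [h1, hve, hue]
          rw [this]; simp [kf]
        · have h1 : c₁ v = 0 ∨ c₁ v = D v := by
            rcases (hval v hv).1 with h1 | h1
            · exact Or.inl h1
            · rcases hu.2.1 v hve with h2 | h2
              · left; rw [h1, h2]
              · right; rw [h1, h2]
          rcases h1 with h1 | h1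
          · rw [h1]; simp [kf]
          · rcases hk.2.1 v hve with h2 | h2
            · rw [h2]; simp [kf]
            · rw [h1, h2]
              unfold kf
              rw [mul_comm]
              exact CharTwo.add_self_eq_zero _
      · intro hg'
        exact absurd (Finset.mem_univ g) hg'
    unfold form at hform
    rw [hone, hg1, hkD] at hform
    have hl := h.letter g hne
    unfold kf z at hform
    rw [hl] at hform
    exact absurd hform (by simp)
  subst hge
  refine ⟨c₁, c₂, ⟨hc₁, ?_, Or.inr hg1⟩, ⟨hc₂, ?_, Or.inr hg2⟩, hg1, hg2, hsum, hd⟩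
  · intro v hv
    rcases (hval v hv).1 with h1 | h1
    · exact Or.inl h1
    · rw [h1]; exact hu.2.1 v hv
  · intro v hv
    rcases (hval v hv).2 with h1 | h1
    · exact Or.inl h1
    · rw [h1]; exact hu.2.1 v hv

/-- the family of supports -/
def FF (L : Submodule (ZMod 2) (V → K)) (D : V → K) (e : V) (S : Finset V) : Prop :=
  ∃ u, KD L D e u ∧ sup e u = S

/-- the even supports -/
def EE (L : Submodule (ZMod 2) (V → K)) (D : V → K) (e : V) (S : Finset V) : Prop :=
  ∃ u, KD L D e u ∧ sup e u = S ∧ u e = 0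

theorem Hyp.fam (h : Hyp L e D) : Fam (FF L D e) (EE L D e) := by
  refine ⟨?_, ?_, ?_⟩
  · rintro S T ⟨u, hu, rfl⟩ ⟨w, hw, rfl⟩
    exact ⟨u + w, hu.add hw, h.sup_add hu hw⟩
  · rintro S T ⟨u, hu, rfl⟩ ⟨w, hw, rfl⟩ h1 h2
    refine ⟨u + w, hu.add hw, h.sup_add hu hw, ?_⟩
    have hu' : u e = z := by
      rcases hu.2.2 with h3 | h3
      · exact absurd ⟨u, hu, rfl, h3⟩ h1
      · exact h3
    have hw' : w e = z := by
      rcases hw.2.2 with h3 | h3
      · exact absurd ⟨w, hw, rfl, h3⟩ h2
      · exact h3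
    rw [Pi.add_apply, hu', hw', K_add_self]
  · rintro S _ ⟨u, hu, rfl, hue⟩ hne
    have hu0 : u ≠ 0 := by
      intro h0
      apply hne
      rw [h0]
      ext v
      simp [mem_sup]
    obtain ⟨c₁, c₂, hc₁, hc₂, he1, he2, hsum, hd⟩ := h.split_in hu hu0 hue
    have hno : ∀ c, KD L D e c → c e = z → sup e c ≠ ∅ := by
      intro c hc hce hs
      refine h.noz c hc.1 ?_ hce
      intro v hv
      by_contra hne'
      have : v ∈ sup e c := mem_sup.2 ⟨hv, hne'⟩
      rw [hs] at this
      exact absurd this (Finset.notMem_empty _)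
    refine ⟨sup e c₁, sup e c₂, ⟨c₁, hc₁, rfl⟩, ⟨c₂, hc₂, rfl⟩, hno _ hc₁ he1, hno _ hc₂ he2, ?_, ?_⟩
    · rw [Finset.disjoint_left]
      intro v h1 h2
      rw [mem_sup] at h1 h2
      rcases hd v h1.1 with h3 | h3
      · exact h1.2 h3
      · exact h2.2 h3
    · ext v
      rw [Finset.mem_union, mem_sup, mem_sup, mem_sup]
      have hs : u v = c₁ v + c₂ v := by rw [hsum]; rfl
      constructor
      · rintro (h1 | h1)
        · refine ⟨h1.1, ?_⟩
          rcases hd v h1.1 with h3 | h3
          · exact absurd h3 h1.2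
          · rw [hs, h3, add_zero]; exact h1.2
        · refine ⟨h1.1, ?_⟩
          rcases hd v h1.1 with h3 | h3
          · rw [hs, h3, zero_add]; exact h1.2
          · exact absurd h3 h1.2
      · rintro ⟨h1, h2⟩
        rcases hd v h1 with h3 | h3
        · right
          refine ⟨h1, ?_⟩
          rw [hs, h3, zero_add] at h2
          exact h2
        · left
          refine ⟨h1, ?_⟩
          rw [hs, h3, add_zero] at h2
          exact h2

/-- **Decomposition of a full state** at `e`: `V - e` is partitioned into sets `M`, each the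
letter-support of a word with z at `e` and letters of `D` exactly on `M`, and every word of the
state is a union of these. -/
theorem Hyp.decomp (h : Hyp L e D) : ∃ P : Finset (Finset V),
    (∀ M ∈ P, M ≠ ∅ ∧ e ∉ M ∧ (fun v => if v = e then z else if v ∈ M then D v else 0) ∈ L) ∧
    (∀ M ∈ P, ∀ N ∈ P, M ≠ N → Disjoint M N) ∧
    (∀ v, v ≠ e → ∃ M ∈ P, v ∈ M) ∧
    (∀ u, KD L D e u → ∀ M ∈ P, M ⊆ sup e u ∨ Disjoint M (sup e u)) := by
  classical
  have hF := h.fam
  refine ⟨univ.filter fun M => IsMin (FF L D e) M, ?_, ?_, ?_, ?_⟩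
  · intro M hM
    have hM : IsMin (FF L D e) M := (Finset.mem_filter.1 hM).2
    obtain ⟨u, hu, hsu⟩ := hM.1
    have hodd := hF.odd hM
    have hue : u e = z := by
      rcases hu.2.2 with h3 | h3
      · exact absurd ⟨u, hu, hsu, h3⟩ hodd
      · exact h3
    refine ⟨hM.2.1, ?_, ?_⟩
    · rw [← hsu, mem_sup]
      simp
    · have : (fun v => if v = e then z else if v ∈ M then D v else 0) = u := by
        funext v
        by_cases hv : v = e
        · simp [hv, hue]
        · rw [if_neg hv]
          by_cases hvM : v ∈ M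
          · rw [if_pos hvM]
            rw [← hsu, mem_sup] at hvM
            rcases hu.2.1 v hv with h1 | h1
            · exact absurd h1 hvM.2
            · exact h1.symm
          · rw [if_neg hvM]
            rw [← hsu, mem_sup] at hvM
            by_contra hne
            exact hvM ⟨hv, fun h0 => hne h0.symm⟩
      rw [this]
      exact hu.1
  · intro M hM N hN hne
    exact hF.disj _ M N rfl (Finset.mem_filter.1 hM).2 (Finset.mem_filter.1 hN).2 hne
  · intro v hv
    obtain ⟨u, hu, huv⟩ := h.full v hv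
    obtain ⟨M, hM, hvM, _⟩ := hF.cover (sup e u) ⟨u, hu, rfl⟩ v (mem_sup.2 ⟨hv, huv⟩)
    exact ⟨M, Finset.mem_filter.2 ⟨Finset.mem_univ _, hM⟩, hvM⟩
  · intro u hu M hM
    exact hF.sub_or_disj ⟨u, hu, rfl⟩ (Finset.mem_filter.1 hM).2

/-- the word of a part -/
def pw (D : V → K) (e : V) (M : Finset V) : V → K :=
  fun v => if v = e then z else if v ∈ M then D v else 0

theorem pw_KD {M : Finset V} (hM : pw D e M ∈ L) : KD L D e (pw D e M) := by
  refine ⟨hM, ?_, Or.inr (by simp [pw])⟩
  intro v hv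
  unfold pw
  rw [if_neg hv]
  by_cases hvM : v ∈ M
  · rw [if_pos hvM]; exact Or.inr rfl
  · rw [if_neg hvM]; exact Or.inl rfl

theorem Hyp.sup_pw (h : Hyp L e D) {M : Finset V} (he : e ∉ M) : sup e (pw D e M) = M := by
  ext v
  rw [mem_sup]
  unfold pw
  by_cases hv : v = e
  · rw [hv]; simp [he]
  · rw [if_neg hv]
    by_cases hvM : v ∈ M
    · rw [if_pos hvM]; exact ⟨fun _ => hvM, fun _ => ⟨hv, h.D_ne hv⟩⟩
    · rw [if_neg hvM]; exact ⟨fun h1 => absurd rfl h1.2, fun h1 => absurd h1 hvM⟩

theorem KD.zero : KD L D e 0 :=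
  ⟨L.zero_mem, fun _ _ => Or.inl rfl, Or.inl rfl⟩

/-- a full state has a word with all letters -/
theorem Hyp.exists_total (h : Hyp L e D) : ∃ u, KD L D e u ∧ ∀ v, v ≠ e → u v = D v := by
  classical
  obtain ⟨P, hP1, -, hP3, hP4⟩ := h.decomp
  obtain ⟨u, hu, hmax⟩ := Finset.exists_max_image (univ.filter fun u : V → K => KD L D e u)
    (fun u => (sup e u).card) ⟨0, Finset.mem_filter.2 ⟨Finset.mem_univ _, KD.zero⟩⟩
  have hu : KD L D e u := (Finset.mem_filter.1 hu).2
  refine ⟨u, hu, ?_⟩
  intro v hv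
  rcases hu.2.1 v hv with h1 | h1
  · exfalso
    obtain ⟨M, hM, hvM⟩ := hP3 v hv
    obtain ⟨-, heM, hML⟩ := hP1 M hM
    have hk : KD L D e (pw D e M) := pw_KD hML
    have hsM : sup e (pw D e M) = M := h.sup_pw heM
    have hdis : Disjoint M (sup e u) := by
      rcases hP4 u hu M hM with h2 | h2
      · exact absurd h1 (mem_sup.1 (h2 hvM)).2
      · exact h2
    have hle := hmax (u + pw D e M) (Finset.mem_filter.2 ⟨Finset.mem_univ _, hu.add hk⟩)
    have hcard : (sup e (u + pw D e M)).card = (sup e u).card + M.card := by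
      rw [h.sup_add hu hk, hsM, (hdis.symm).symmDiff_eq_sup]
      exact Finset.card_union_of_disjoint hdis.symm
    have hpos : 0 < M.card := Finset.card_pos.2 ⟨v, hvM⟩
    have hle' : (sup e (u + pw D e M)).card ≤ (sup e u).card := hle
    omega
  · exact h1

/-- **Uniqueness** of the full state at `e` when there is no `{0,z}`-word. -/
theorem Hyp.unique {D' : V → K} (h : Hyp L e D) (h' : Hyp L e D') (hz : NoZ L) :
    ∀ v, v ≠ e → D v = D' v := by
  obtain ⟨u, hu, hut⟩ := h.exists_total
  obtain ⟨w, hw, hwt⟩ := h'.exists_total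
  have h0 : u + w = 0 := by
    apply hz _ (L.add_mem hu.1 hw.1)
    intro v
    by_cases hv : v = e
    · rw [hv, Pi.add_apply]
      exact K_fst_add _ _ hu.2.2 hw.2.2
    · rw [Pi.add_apply, hut v hv, hwt v hv, Prod.fst_add, h.letter v hv, h'.letter v hv]
      decide
  intro v hv
  have h1 := congrFun h0 v
  rw [Pi.add_apply, hut v hv, hwt v hv, Pi.zero_apply] at h1
  have h2 : D v + D' v + D' v = D' v := by rw [h1, zero_add]
  rw [add_assoc, K_add_self, add_zero] at h2
  exact h2

/-- Uniqueness of the full state at `e` up to a simultaneous change, when the only `{0,z}`-words are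
`0` and `z1`. -/
theorem Hyp.unique' {D' : V → K} (h : Hyp L e D) (h' : Hyp L e D')
    (hz : ∀ u ∈ L, ZOnly u → u = 0 ∨ ∀ v, u v = z) :
    (∀ v, v ≠ e → D v = D' v) ∨ (∀ v, v ≠ e → D v = D' v + z) := by
  obtain ⟨u, hu, hut⟩ := h.exists_total
  obtain ⟨w, hw, hwt⟩ := h'.exists_total
  have h0 : u + w = 0 ∨ ∀ v, (u + w) v = z := by
    apply hz _ (L.add_mem hu.1 hw.1)
    intro v
    by_cases hv : v = e
    · rw [hv, Pi.add_apply]
      exact K_fst_add _ _ hu.2.2 hw.2.2
    · rw [Pi.add_apply, hut v hv, hwt v hv, Prod.fst_add, h.letter v hv, h'.letter v hv]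
      decide
  rcases h0 with h0 | h0
  · left
    intro v hv
    have h1 := congrFun h0 v
    rw [Pi.add_apply, hut v hv, hwt v hv, Pi.zero_apply] at h1
    have h2 : D v + D' v + D' v = D' v := by rw [h1, zero_add]
    rw [add_assoc, K_add_self, add_zero] at h2
    exact h2
  · right
    intro v hv
    have h1 := h0 v
    rw [Pi.add_apply, hut v hv, hwt v hv] at h1
    have h2 : D v + D' v + D' v = z + D' v := by rw [h1]
    rw [add_assoc, K_add_self, add_zero] at h2
    rw [h2, add_comm]

end Pool.Agent.H19.QT
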